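import Pool.Agent.Helper71.AG2.Goals

set_option autoImplicit false

namespace Pool.Agent.Helper14.AG2

open Pool.Agent.Helper71.AG2

universe u

theorem ss_map {G G' : Type u} [Group G] [Group G'] (f : G →* G')
    (hf : Function.Surjective f) (h : Helper46.KG.IsSupersolvable G) :
    Helper46.KG.IsSupersolvable G' := by
  obtain ⟨n, H, h0, hn, hN, hc⟩ := h
  refine ⟨n, fun i => (H i).map f, ?_, ?_, fun i => (hN i).map f hf, fun i hi => ?_⟩
  · simp only [h0, Subgroup.map_bot]
  · simp only [hn]
    exact Subgroup.map_top_of_surjective f hf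
  · obtain ⟨g, hg⟩ := hc i hi
    refine ⟨f g, ?_⟩
    simp only [hg, Subgroup.map_sup, MonoidHom.map_zpowers]

/-- The preimage of a cyclic subgroup is generated by the kernel and one element. -/
theorem comap_zpowers {G Q : Type u} [Group G] [Group Q] (φ : G →* Q) (c : Q) :
    ∃ g : G, (Subgroup.zpowers c).comap φ = φ.ker ⊔ Subgroup.zpowers g := by
  have hle : ((Subgroup.zpowers c).comap φ).map φ ≤ Subgroup.zpowers c :=
    Subgroup.map_comap_le _ _
  have hcyc : IsCyclic (((Subgroup.zpowers c).comap φ).map φ) :=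
    Subgroup.isCyclic_of_le hle
  obtain ⟨d, hd⟩ := (Subgroup.isCyclic_iff_exists_zpowers_eq_top _).1 hcyc
  have hdm : d ∈ ((Subgroup.zpowers c).comap φ).map φ := by
    rw [← hd]
    exact Subgroup.mem_zpowers d
  obtain ⟨g, hg, rfl⟩ := hdm
  refine ⟨g, ?_⟩
  have h1 : ((Subgroup.zpowers c).comap φ).map φ = (Subgroup.zpowers g).map φ := by
    rw [MonoidHom.map_zpowers, hd]
  rw [Subgroup.map_eq_map_iff] at h1
  rw [sup_comm φ.ker, ← h1, sup_eq_left.2]
  intro x hx
  rw [Subgroup.mem_comap, MonoidHom.mem_ker.1 hx]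
  exact one_mem _

theorem ss_comap {G G' : Type u} [Group G] [Group G'] (f : G →* G')
    (hf : Function.Injective f) (h : Helper46.KG.IsSupersolvable G') :
    Helper46.KG.IsSupersolvable G := by
  obtain ⟨n, H, h0, hn, hN, hc⟩ := h
  refine ⟨n, fun i => (H i).comap f, ?_, ?_, fun i => (hN i).comap f, fun i hi => ?_⟩
  · simp only [h0]
    exact (MonoidHom.ker_eq_bot_iff f).2 hf
  · simp only [hn, Subgroup.comap_top]
  · obtain ⟨g, hg⟩ := hc i hi
    have := hN i
    obtain ⟨g', hg'⟩ := comap_zpowers ((QuotientGroup.mk' (H i)).comp f)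
      (QuotientGroup.mk' (H i) g)
    refine ⟨g', ?_⟩
    have hker : ((QuotientGroup.mk' (H i)).comp f).ker = (H i).comap f := by
      rw [← MonoidHom.comap_ker, QuotientGroup.ker_mk']
    rw [hker, ← Subgroup.comap_comap, ← MonoidHom.map_zpowers, QuotientGroup.comap_map_mk',
      ← hg] at hg'
    exact hg'

theorem comm_map {G G' : Type u} [Group G] [Group G'] (f : G →* G') :
    (commutator G).map f ≤ commutator G' := by
  unfold commutator
  rw [Subgroup.map_commutator]
  exact Subgroup.commutator_mono le_top le_top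

theorem comm_map_surj {G G' : Type u} [Group G] [Group G'] (f : G →* G')
    (hf : Function.Surjective f) : (commutator G).map f = commutator G' := by
  unfold commutator
  rw [Subgroup.map_commutator, Subgroup.map_top_of_surjective f hf]

/-- TOP. -/
theorem top : TopStmt.{u} := by
  refine ⟨?_, ?_⟩
  · intro G G' _ _ f hf h
    rcases h with h | h
    · exact Or.inl (ss_map f hf h)
    · refine Or.inr ?_
      rw [← comm_map_surj f hf]
      rintro _ ⟨x, hx, rfl⟩ _ ⟨y, hy, rfl⟩
      rw [← map_mul, ← map_mul, h x hx y hy]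
  · intro G G' _ _ f hf h
    rcases h with h | h
    · exact Or.inl (ss_comap f hf h)
    · refine Or.inr fun x hx y hy => hf ?_
      rw [map_mul, map_mul]
      exact h _ (comm_map f ⟨x, hx, rfl⟩) _ (comm_map f ⟨y, hy, rfl⟩)

end Pool.Agent.Helper14.AG2
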